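import Pool.Agent.H65.CF.T7

/-!
# BLV: the variance of a sum over real characters (MP_347b49_nt)
-/

set_option autoImplicit false

open Pool.Agent.H31.CN Pool.Agent.H65.AD Pool.Agent.H65.CF

namespace Pool.Agent.H18.CFH

/-- the inequality of Minkowski for finite sums -/
theorem mink {ι : Type} (s : Finset ℕ) (I : Finset ι) (F : ι → ℕ → ℝ) (b : ι → ℝ)
    (hb : ∀ i ∈ I, 0 ≤ b i) (h : ∀ i ∈ I, ∑ D ∈ s, F i D ^ 2 ≤ b i ^ 2) :
    ∑ D ∈ s, (∑ i ∈ I, F i D) ^ 2 ≤ (∑ i ∈ I, b i) ^ 2 := by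
  have h1 : ∀ D ∈ s, (∑ i ∈ I, F i D) ^ 2 = ∑ i ∈ I, ∑ k ∈ I, F i D * F k D := by
    intro D _
    rw [sq, Finset.sum_mul_sum]
  rw [Finset.sum_congr rfl h1, sq, Finset.sum_mul_sum, Finset.sum_comm]
  refine Finset.sum_le_sum fun i hi => ?_
  rw [Finset.sum_comm]
  refine Finset.sum_le_sum fun k hk => ?_
  apply abs_le_of_sq_le_sq' _ (mul_nonneg (hb i hi) (hb k hk)) |>.2
  calc (∑ D ∈ s, F i D * F k D) ^ 2 ≤ (∑ D ∈ s, F i D ^ 2) * ∑ D ∈ s, F k D ^ 2 :=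
        Finset.sum_mul_sq_le_sq_mul_sq _ _ _
    _ ≤ b i ^ 2 * b k ^ 2 := mul_le_mul (h i hi) (h k hk)
        (Finset.sum_nonneg fun _ _ => sq_nonneg _) (sq_nonneg _)
    _ = (b i * b k) ^ 2 := by ring

/-- geometric sum -/
theorem geom_up {q : ℝ} (hq : 4 / 3 ≤ q) (J : ℕ) :
    ∑ j ∈ Finset.range (J + 1), q ^ j ≤ 4 * q ^ J := by
  induction J with
  | zero => simp
  | succ J ih =>
    rw [Finset.sum_range_succ]
    have h1 : 0 ≤ q ^ J := by positivity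
    have h2 : q ^ (J + 1) = q * q ^ J := by ring
    nlinarith

/-- decreasing geometric sum -/
theorem geom_down {w : ℝ} (hw0 : 0 ≤ w) (hw : w ≤ 3 / 4) (J₀ J : ℕ) (hJ : J₀ ≤ J) :
    ∑ j ∈ Finset.Ico J₀ J, w ^ j + 4 * w ^ J ≤ 4 * w ^ J₀ := by
  induction J, hJ using Nat.le_induction with
  | base => simp
  | succ J hJ ih =>
    rw [Finset.sum_Ico_succ_top hJ]
    have h1 : 0 ≤ w ^ J := by positivity
    have h2 : w ^ (J + 1) = w * w ^ J := by ring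
    nlinarith

theorem pf_BLV (hQLS : T_QLS) : T_BLV := by
  classical
  obtain ⟨C₀, hC₀, hQ⟩ := hQLS
  refine ⟨128 * C₀, by positivity, ?_⟩
  intro X R U b hX hR hb
  have hX0 : 0 < X := by linarith
  have hR0 : (0 : ℝ) < R := by exact_mod_cast (by omega : 0 < R)
  set F : Finset ℕ := (Finset.Ioc R U).filter (fun r => Odd r ∧ Squarefree r) with hF
  by_cases hUR : U ≤ R
  · have hF0 : F = ∅ := by
      rw [hF, Finset.Ioc_eq_empty_of_le hUR, Finset.filter_empty]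
    rw [hF0]
    simp only [Finset.sum_empty]
    have h1 : ∑ _D ∈ Finset.Icc 1 ⌊X⌋₊, (0 : ℝ) ^ 2 = 0 := by simp
    rw [h1]
    positivity
  push Not at hUR
  have hU0 : (0 : ℝ) < U := by exact_mod_cast (by omega : 0 < U)
  have hU1 : (1 : ℝ) ≤ U := by exact_mod_cast (by omega : 1 ≤ U)
  set J₀ : ℕ := Nat.log 2 R with hJ₀
  set J₁ : ℕ := Nat.log 2 U with hJ₁
  set q : ℝ := Real.sqrt 2 with hq
  have hq2 : q ^ 2 = 2 := Real.sq_sqrt (by norm_num)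
  have hq0 : 0 < q := Real.sqrt_pos.2 (by norm_num)
  have hq43 : 4 / 3 ≤ q := by
    rw [hq]
    apply Real.le_sqrt_of_sq_le
    norm_num
  have hqj : ∀ j : ℕ, (q ^ j) ^ 2 = 2 ^ j := by
    intro j
    rw [← pow_mul, mul_comm, pow_mul, hq2]
  have hmaps : ∀ r ∈ F, Nat.log 2 r ∈ Finset.Ico J₀ (J₁ + 1) := by
    intro r hr
    rw [hF, Finset.mem_filter, Finset.mem_Ioc] at hr
    rw [Finset.mem_Ico]
    refine ⟨Nat.log_mono_right hr.1.1.le, ?_⟩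
    have := Nat.log_mono_right (b := 2) hr.1.2
    omega
  have hsplit : ∀ D : ℕ, ∑ r ∈ F, b r * xD r D =
      ∑ j ∈ Finset.Ico J₀ (J₁ + 1), ∑ r ∈ F.filter (fun r => Nat.log 2 r = j), b r * xD r D := by
    intro D
    exact (Finset.sum_fiberwise_of_maps_to hmaps _).symm
  rw [Finset.sum_congr rfl fun D _ => by rw [hsplit D]]
  -- the blocks
  set B : ℕ → ℝ := fun j => Real.sqrt C₀ * (Real.sqrt X * (q⁻¹) ^ j + 2 * q ^ j) with hB
  have hblock : ∀ j ∈ Finset.Ico J₀ (J₁ + 1), ∑ D ∈ Finset.Icc 1 ⌊X⌋₊,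
      (∑ r ∈ F.filter (fun r => Nat.log 2 r = j), b r * xD r D) ^ 2 ≤ B j ^ 2 := by
    intro j hj
    have hr : ∀ r ∈ F.filter (fun r => Nat.log 2 r = j), 2 ≤ r ∧ r ≤ 2 ^ (j + 1) ∧ Odd r ∧
        Squarefree r ∧ 2 ^ j ≤ r ∧ r < 2 ^ (j + 1) := by
      intro r hr
      rw [Finset.mem_filter, hF, Finset.mem_filter, Finset.mem_Ioc] at hr
      obtain ⟨⟨⟨h1, h2⟩, h3, h4⟩, h5⟩ := hr
      have h6 : 2 ^ j ≤ r := by
        rw [← h5]
        exact Nat.pow_log_le_self 2 (by omega)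
      have h7 : r < 2 ^ (j + 1) := by
        rw [← h5]
        exact Nat.lt_pow_succ_log_self (by norm_num) r
      exact ⟨by omega, h7.le, h3, h4, h6, h7⟩
    refine (hQ X (2 ^ (j + 1)) _ b hX fun r h => ⟨(hr r h).1, (hr r h).2.1, (hr r h).2.2.1,
      (hr r h).2.2.2.1⟩).trans ?_
    have h2j : (0 : ℝ) < 2 ^ j := by positivity
    have hbs : ∑ r ∈ F.filter (fun r => Nat.log 2 r = j), b r ^ 2 ≤ ((2 : ℝ) ^ j)⁻¹ := by
      have h1 : ∀ r ∈ F.filter (fun r => Nat.log 2 r = j), b r ^ 2 ≤ (((2 : ℝ) ^ j)⁻¹) ^ 2 := by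
        intro r h
        obtain ⟨-, -, -, -, h6, -⟩ := hr r h
        have h7 : (2 : ℝ) ^ j ≤ r := by exact_mod_cast h6
        have h8 : |b r| ≤ ((2 : ℝ) ^ j)⁻¹ := by
          refine (hb r).trans ?_
          rw [one_div]
          exact inv_anti₀ h2j h7
        rw [← sq_abs]
        exact pow_le_pow_left₀ (abs_nonneg _) h8 2
      have hcard : ((F.filter (fun r => Nat.log 2 r = j)).card : ℝ) ≤ 2 ^ j := by
        have h3 : F.filter (fun r => Nat.log 2 r = j) ⊆ Finset.Ico (2 ^ j) (2 ^ (j + 1)) := by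
          intro r h
          obtain ⟨-, -, -, -, h6, h7⟩ := hr r h
          exact Finset.mem_Ico.2 ⟨h6, h7⟩
        have h4 := Finset.card_le_card h3
        rw [Nat.card_Ico, pow_succ] at h4
        have h5 : (F.filter (fun r => Nat.log 2 r = j)).card ≤ 2 ^ j := by omega
        exact_mod_cast h5
      calc ∑ r ∈ F.filter (fun r => Nat.log 2 r = j), b r ^ 2
          ≤ ∑ _r ∈ F.filter (fun r => Nat.log 2 r = j), (((2 : ℝ) ^ j)⁻¹) ^ 2 :=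
            Finset.sum_le_sum h1
        _ = ((F.filter (fun r => Nat.log 2 r = j)).card : ℝ) * (((2 : ℝ) ^ j)⁻¹) ^ 2 := by
            rw [Finset.sum_const, nsmul_eq_mul]
        _ ≤ 2 ^ j * (((2 : ℝ) ^ j)⁻¹) ^ 2 := mul_le_mul_of_nonneg_right hcard (by positivity)
        _ = ((2 : ℝ) ^ j)⁻¹ := by
            field_simp
    calc C₀ * (X + ((2 ^ (j + 1) : ℕ) : ℝ) ^ 2) *
          ∑ r ∈ F.filter (fun r => Nat.log 2 r = j), b r ^ 2
        ≤ C₀ * (X + ((2 ^ (j + 1) : ℕ) : ℝ) ^ 2) * ((2 : ℝ) ^ j)⁻¹ :=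
          mul_le_mul_of_nonneg_left hbs (by positivity)
      _ = C₀ * (X * ((2 : ℝ) ^ j)⁻¹ + 4 * 2 ^ j) := by
          push_cast
          rw [pow_succ]
          field_simp
          ring
      _ ≤ B j ^ 2 := by
          have e1 : Real.sqrt C₀ ^ 2 = C₀ := Real.sq_sqrt hC₀.le
          have e2 : Real.sqrt X ^ 2 = X := Real.sq_sqrt hX0.le
          have e3 : ((q⁻¹) ^ j) ^ 2 = ((2 : ℝ) ^ j)⁻¹ := by
            rw [inv_pow, inv_pow, hqj]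
          have e4 : 0 ≤ Real.sqrt X * (q⁻¹) ^ j * q ^ j := by positivity
          show _ ≤ (Real.sqrt C₀ * (Real.sqrt X * (q⁻¹) ^ j + 2 * q ^ j)) ^ 2
          rw [mul_pow, e1]
          refine mul_le_mul_of_nonneg_left ?_ hC₀.le
          have e5 : (Real.sqrt X * (q⁻¹) ^ j + 2 * q ^ j) ^ 2 =
              X * ((2 : ℝ) ^ j)⁻¹ + 4 * 2 ^ j + 4 * (Real.sqrt X * (q⁻¹) ^ j * q ^ j) := by
            have e6 : (Real.sqrt X * (q⁻¹) ^ j + 2 * q ^ j) ^ 2 =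
                Real.sqrt X ^ 2 * ((q⁻¹) ^ j) ^ 2 + 4 * (q ^ j) ^ 2 +
                  4 * (Real.sqrt X * (q⁻¹) ^ j * q ^ j) := by
              ring
            rw [e6, e2, e3, hqj]
          rw [e5]
          linarith
  refine (mink _ _ _ B (fun j _ => by positivity) hblock).trans ?_
  -- the sum over the blocks
  have hJ01 : J₀ ≤ J₁ + 1 := by
    have := Nat.log_mono_right (b := 2) hUR.le
    omega
  have hs1 : ∑ j ∈ Finset.Ico J₀ (J₁ + 1), (q⁻¹) ^ j ≤ 4 * (q⁻¹) ^ J₀ := by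
    have h1 : q⁻¹ ≤ 3 / 4 := by
      rw [inv_le_comm₀ hq0 (by norm_num)]
      linarith
    have h2 := geom_down (w := q⁻¹) (by positivity) h1 J₀ (J₁ + 1) hJ01
    have h3 : 0 ≤ (q⁻¹) ^ (J₁ + 1) := by positivity
    linarith
  have hs2 : ∑ j ∈ Finset.Ico J₀ (J₁ + 1), q ^ j ≤ 4 * q ^ J₁ := by
    refine le_trans (Finset.sum_le_sum_of_subset_of_nonneg ?_ ?_) (geom_up hq43 J₁)
    · intro j hj
      rw [Finset.mem_Ico] at hj
      exact Finset.mem_range.2 hj.2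
    · intro j _ _
      positivity
  have hsum : ∑ j ∈ Finset.Ico J₀ (J₁ + 1), B j ≤
      Real.sqrt C₀ * (Real.sqrt X * (4 * (q⁻¹) ^ J₀) + 2 * (4 * q ^ J₁)) := by
    have h1 : ∑ j ∈ Finset.Ico J₀ (J₁ + 1), B j = Real.sqrt C₀ * (Real.sqrt X *
        (∑ j ∈ Finset.Ico J₀ (J₁ + 1), (q⁻¹) ^ j) + 2 * ∑ j ∈ Finset.Ico J₀ (J₁ + 1), q ^ j) := by
      rw [Finset.mul_sum, Finset.mul_sum, ← Finset.sum_add_distrib, Finset.mul_sum]
    rw [h1]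
    gcongr
  have hB0 : 0 ≤ ∑ j ∈ Finset.Ico J₀ (J₁ + 1), B j := Finset.sum_nonneg fun j _ => by positivity
  refine (pow_le_pow_left₀ hB0 hsum 2).trans ?_
  have e1 : Real.sqrt C₀ ^ 2 = C₀ := Real.sq_sqrt hC₀.le
  have e2 : Real.sqrt X ^ 2 = X := Real.sq_sqrt hX0.le
  have hR2 : ((q⁻¹) ^ J₀) ^ 2 ≤ 2 / R := by
    rw [inv_pow, inv_pow, hqj, ← one_div, div_le_div_iff₀ (by positivity) hR0, one_mul]
    have h1 : R < 2 ^ (J₀ + 1) := Nat.lt_pow_succ_log_self (by norm_num) R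
    have h2 : (R : ℝ) ≤ 2 ^ (J₀ + 1) := by exact_mod_cast h1.le
    rw [pow_succ] at h2
    linarith
  have hU2 : (q ^ J₁) ^ 2 ≤ U := by
    rw [hqj]
    have h1 : 2 ^ J₁ ≤ U := Nat.pow_log_le_self 2 (by omega)
    exact_mod_cast h1
  have hU3 : (U : ℝ) ≤ (U : ℝ) ^ (3 / 2 : ℝ) := by
    calc (U : ℝ) = (U : ℝ) ^ (1 : ℝ) := (Real.rpow_one _).symm
      _ ≤ (U : ℝ) ^ (3 / 2 : ℝ) := Real.rpow_le_rpow_of_exponent_le hU1 (by norm_num)
  have h3 : (Real.sqrt C₀ * (Real.sqrt X * (4 * (q⁻¹) ^ J₀) + 2 * (4 * q ^ J₁))) ^ 2 ≤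
      C₀ * (32 * (X * ((q⁻¹) ^ J₀) ^ 2) + 128 * (q ^ J₁) ^ 2) := by
    rw [mul_pow, e1]
    refine mul_le_mul_of_nonneg_left ?_ hC₀.le
    have h4 : (Real.sqrt X * (4 * (q⁻¹) ^ J₀) + 2 * (4 * q ^ J₁)) ^ 2 ≤
        2 * (Real.sqrt X * (4 * (q⁻¹) ^ J₀)) ^ 2 + 2 * (2 * (4 * q ^ J₁)) ^ 2 := by
      nlinarith [sq_nonneg (Real.sqrt X * (4 * (q⁻¹) ^ J₀) - 2 * (4 * q ^ J₁))]
    refine h4.trans (le_of_eq ?_)
    rw [mul_pow (Real.sqrt X), e2]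
    ring
  refine h3.trans ?_
  have h5 : X * ((q⁻¹) ^ J₀) ^ 2 ≤ X * (2 / R) := mul_le_mul_of_nonneg_left hR2 hX0.le
  have h6 : X * (2 / (R : ℝ)) = 2 * (X / R) := by ring
  have h7 : 0 ≤ X / (R : ℝ) := by positivity
  have h8 : 32 * (X * ((q⁻¹) ^ J₀) ^ 2) + 128 * (q ^ J₁) ^ 2 ≤
      128 * (X / R + (U : ℝ) ^ (3 / 2 : ℝ)) := by
    nlinarith
  calc C₀ * (32 * (X * ((q⁻¹) ^ J₀) ^ 2) + 128 * (q ^ J₁) ^ 2)
      ≤ C₀ * (128 * (X / R + (U : ℝ) ^ (3 / 2 : ℝ))) := mul_le_mul_of_nonneg_left h8 hC₀.le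
    _ = 128 * C₀ * (X / R + (U : ℝ) ^ (3 / 2 : ℝ)) := by ring

end Pool.Agent.H18.CFH
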