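import Pool.Agent.H65.CF.T6
import Pool.Agent.H72.CFH.KPR

/-!
# CSJ: the sum of the coefficients (MP_347b49_nt)
-/

set_option autoImplicit false

open Pool.Agent.H31.CN Pool.Agent.H65.AD Pool.Agent.H91.CF Pool.Agent.H65.CF

namespace Pool.Agent.H18.CFH

open Pool.Agent.H72.CFH

theorem rd_pf (f : ℕ) : (rd f).primeFactors = f.primeFactors := by
  unfold rd
  exact Nat.primeFactors_prod fun p hp => Nat.prime_of_mem_primeFactors hp

theorem rd_sq (f : ℕ) : Squarefree (rd f) := by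
  unfold rd
  refine Finset.squarefree_prod_of_pairwise_isCoprime ?_ fun p hp =>
    (Nat.prime_of_mem_primeFactors hp).prime.squarefree
  intro p hp q hq hpq
  show IsRelPrime p q
  rw [← Nat.coprime_iff_isRelPrime]
  exact (Nat.coprime_primes (Nat.prime_of_mem_primeFactors hp)
    (Nat.prime_of_mem_primeFactors hq)).2 hpq

theorem ju_card (f d D : ℕ) : (ju f d D).card = KPR.cn d (Qp f D) 0 0 := by
  classical
  unfold ju KPR.cn
  congr 1
  apply Finset.filter_congr
  intro j _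
  simp

theorem cn_p (p : ℕ) (hp : p.Prime) (Q : QF) : KPR.cn p Q 0 0 = by
    classical exact ((Finset.range p).filter (fun j : ℕ => ¬ (p : ℤ) ∣ val Q ((j : ℤ), 1))).card := by
  classical
  unfold KPR.cn
  congr 1
  apply Finset.filter_congr
  intro j _
  have h1 : IsCoprime (val Q ((j : ℤ), 1)) (p : ℤ) ↔ ¬ (p : ℤ) ∣ val Q ((j : ℤ), 1) := by
    rw [isCoprime_comm]
    exact (Nat.prime_iff_prime_int.1 hp).irreducible.coprime_iff_not_dvd
  rw [h1]
  simp

theorem pf_CSJ (hNPF : T_NPF) : T_CSJ := by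
  classical
  intro f D hf hD
  have hn := fun (p : ℕ) (hp : p ∈ f.primeFactors) =>
    hNPF f D p hf hD (Nat.prime_of_mem_primeFactors hp) (Nat.dvd_of_mem_primeFactors hp)
  set n : ℕ → ℝ := fun p => (npD f p D : ℝ) with hndef
  have hn1 : ∀ p ∈ f.primeFactors, (1 : ℝ) ≤ n p := by
    intro p hp
    show (1 : ℝ) ≤ ((npD f p D : ℤ) : ℝ)
    exact_mod_cast (hn p hp).2.1
  have hcn : ∀ p ∈ f.primeFactors, (KPR.cn p (Qp f D) 0 0 : ℝ) = n p - 1 := by
    intro p hp
    rw [cn_p p (Nat.prime_of_mem_primeFactors hp)]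
    have h1 := (hn p hp).2.2
    have h2 : n p = 1 + (((Finset.range p).filter
      (fun j : ℕ => ¬ (p : ℤ) ∣ val (Qp f D) ((j : ℤ), 1))).card : ℝ) := by
      show ((npD f p D : ℤ) : ℝ) = _
      rw [h1]
      push_cast
      rfl
    rw [h2]
    ring
  have hrhs : piD f D * ∏ p ∈ f.primeFactors, (1 - 1 / (p : ℝ)) =
      ∏ p ∈ f.primeFactors, (-(1 / n p) * ((n p - 1) / p) + (1 - 1 / n p)) := by
    unfold piD
    rw [← Finset.prod_mul_distrib]
    refine Finset.prod_congr rfl fun p hp => ?_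
    unfold pit
    rw [if_pos (Nat.dvd_of_mem_primeFactors hp)]
    have h1 := hn1 p hp
    have h2 : (0 : ℝ) < p := by exact_mod_cast (Nat.prime_of_mem_primeFactors hp).pos
    have h3 : (npt f p (ch p D) : ℝ) = n p := rfl
    rw [h3]
    field_simp
    ring
  rw [hrhs, Finset.prod_add, ← rd_pf f,
    KPR.sum_sf (rd_sq f) (fun t => (∏ p ∈ t, (-(1 / n p) * ((n p - 1) / p))) *
      ∏ p ∈ (rd f).primeFactors \ t, (1 - 1 / n p))]
  refine Finset.sum_congr rfl fun d hd => ?_
  have hdf := Nat.dvd_of_mem_divisors hd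
  have hds : Squarefree d := (rd_sq f).squarefree_of_dvd hdf
  have hsub : d.primeFactors ⊆ f.primeFactors := by
    rw [← rd_pf f]
    exact Nat.primeFactors_mono hdf (rd_sq f).ne_zero
  have h2 : ((ju f d D).card : ℝ) = ∏ p ∈ d.primeFactors, (n p - 1) := by
    rw [ju_card]
    have h3 : KPR.cn d (Qp f D) 0 0 = ∏ p ∈ d.primeFactors, KPR.cn p (Qp f D) 0 0 := by
      rw [← KPR.cn_prod _ fun p hp => Nat.prime_of_mem_primeFactors hp,
        Nat.prod_primeFactors_of_squarefree hds]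
    rw [h3]
    push_cast
    exact Finset.prod_congr rfl fun p hp => hcn p (hsub hp)
  have h4 : (d : ℝ) = ∏ p ∈ d.primeFactors, (p : ℝ) := by
    rw [← Nat.cast_prod, Nat.prod_primeFactors_of_squarefree hds]
  rw [KPR.sdiff_pf (rd_sq f) hdf, Finset.prod_mul_distrib, Finset.prod_div_distrib, h2, ← h4]
  unfold cfd
  ring

end Pool.Agent.H18.CFH
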